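import Mathlib
import Pool.Agent.TH394.HadBorder

/-!
# A Goethals-Seidel array with a border constant on cosets

`G` is a finite abelian group with a homomorphism `π` onto a finite abelian group `Q`, and
`a, b, c, d` are four `±1` functions on `G` with class sums `A, B, C, D`. The Goethals-Seidel array
is bordered by `r` rows and `r` columns whose entries depend only on the image in `Q`. The four
conditions `h1`, `h2`, `h3`, `hP` say that the result is a Hadamard matrix of order `r + 4 |G|`:
`h1`, `h2`, `h3` only involve matrices indexed by `Fin r` and `Fin 4 × Q`, and `hP` prescribes the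
total periodic autocorrelation of `a, b, c, d`.
-/

set_option autoImplicit false
set_option linter.unusedSectionVars false

namespace Pool.Agent.TH786.Had

open Finset Matrix Pool.Agent.TH394

variable {G : Type} [AddCommGroup G] [Fintype G] {Q : Type} [AddCommGroup Q] [Fintype Q]
  [DecidableEq Q]

/-- the bordered array -/
def bordQ {r : ℕ} (π : G → Q) (a b c d : G → ℤ) (Z : Fin 4 → Q → Fin r → ℤ)
    (Y : Fin r → Fin 4 → Q → ℤ) (X : Fin r → Fin r → ℤ) :
    Fin r ⊕ (Fin 4 × G) → Fin r ⊕ (Fin 4 × G) → ℤ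
  | .inl p, .inl q => X p q
  | .inl p, .inr (j, t) => Y p j (π t)
  | .inr (i, x), .inl q => Z i (π x) q
  | .inr (i, x), .inr (j, t) => gs a b c d i x j t

/-- The border construction. -/
theorem hadamard_borderQ [DecidableEq G] {r : ℕ} (π : G → Q)
    (hπ : ∀ x y, π (x + y) = π x + π y)
    (a b c d : G → ℤ) (ha : ∀ x, a x = 1 ∨ a x = -1)
    (hb : ∀ x, b x = 1 ∨ b x = -1) (hc : ∀ x, c x = 1 ∨ c x = -1)
    (hd : ∀ x, d x = 1 ∨ d x = -1)
    (w : ℤ) (hw : ∀ q, ∑ x, (if π x = q then (1 : ℤ) else 0) = w)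
    (A B C D : Q → ℤ)
    (hA : ∀ q, ∑ x, (if π x = q then a x else 0) = A q)
    (hB : ∀ q, ∑ x, (if π x = q then b x else 0) = B q)
    (hC : ∀ q, ∑ x, (if π x = q then c x else 0) = C q)
    (hD : ∀ q, ∑ x, (if π x = q then d x else 0) = D q)
    (Z : Fin 4 → Q → Fin r → ℤ) (Y : Fin r → Fin 4 → Q → ℤ) (X : Fin r → Fin r → ℤ)
    (hZ : ∀ i q p, Z i q p = 1 ∨ Z i q p = -1) (hY : ∀ p i q, Y p i q = 1 ∨ Y p i q = -1)
    (hX : ∀ p q, X p q = 1 ∨ X p q = -1)
    (N : ℤ) (hN : N = r + 4 * (Fintype.card G : ℤ))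
    (h1 : ∀ p p', ∑ q, X p q * X p' q + w * ∑ j, ∑ q, Y p j q * Y p' j q =
      if p = p' then N else 0)
    (h2 : ∀ p i x, ∑ q, X p q * Z i x q + ∑ j, ∑ q, gs A B C D i x j q * Y p j q = 0)
    (τ : Q → ℤ)
    (h3 : ∀ i x i' t, ∑ p, Z i x p * Z i' t p = if i = i' then -τ (x - t) else 0)
    (hP : ∀ s, s ≠ 0 → P a b c d s = τ (π s)) :
    HadOrder (r + 4 * Fintype.card G) := by
  have hsub : ∀ x t, π (x - t) = π x - π t := by
    intro x t
    rw [sub_eq_add_neg, hπ, pi_neg π hπ, ← sub_eq_add_neg]
  have hYY : ∀ p p', ∑ j, ∑ t, Y p j (π t) * Y p' j (π t) =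
      w * ∑ j, ∑ q, Y p j q * Y p' j q := by
    intro p p'
    rw [Finset.mul_sum]
    refine Finset.sum_congr rfl fun j _ => ?_
    have := sum_fib π (fun _ => (1 : ℤ)) (fun _ => w) hw (fun q => Y p j q * Y p' j q)
    simp only [one_mul] at this
    rw [this, Finset.mul_sum]
  have cross : ∀ (p : Fin r) (i : Fin 4) (x : G),
      ∑ s, bordQ π a b c d Z Y X (.inl p) s * bordQ π a b c d Z Y X (.inr (i, x)) s = 0 := by
    intro p i x
    rw [Fintype.sum_sum_type, Fintype.sum_prod_type]
    simp only [bordQ]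
    have e2 : ∀ j : Fin 4, ∑ t, Y p j (π t) * gs a b c d i x j t =
        ∑ q, gs A B C D i (π x) j q * Y p j q := by
      intro j
      rw [← gs_quot π hπ a b c d A B C D hA hB hC hD (Y p j) i j x]
      exact Finset.sum_congr rfl fun t _ => mul_comm _ _
    simp only [e2]
    exact h2 p i (π x)
  have hNn : ((r + 4 * Fintype.card G : ℕ) : ℤ) = N := by
    rw [hN]; push_cast; ring
  refine hadOrder_of (ι := Fin r ⊕ (Fin 4 × G)) _ (by simp)
    (bordQ π a b c d Z Y X) ?_ ?_
  · rintro (p | ⟨i, x⟩) (q | ⟨j, t⟩)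
    · exact hX _ _
    · exact hY _ _ _
    · exact hZ _ _ _
    · exact gs_pm a b c d ha hb hc hd _ _ _ _
  · rw [hNn]
    rintro (p | ⟨i, x⟩) (p' | ⟨i', x'⟩)
    · rw [Fintype.sum_sum_type, Fintype.sum_prod_type]
      simp only [bordQ]
      rw [hYY, h1]
      by_cases h : p = p'
      · simp [h]
      · simp [h]
    · rw [cross]; simp
    · have := cross p' i x
      simp only [reduceCtorEq, if_false]
      rw [← this]
      exact Finset.sum_congr rfl fun r _ => mul_comm _ _
    · rw [Fintype.sum_sum_type, Fintype.sum_prod_type]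
      simp only [bordQ]
      rw [h3, gs_inner]
      by_cases h : i = i'
      · by_cases h' : x = x'
        · subst h; subst h'
          have e : -τ (π x - π x) = r := by
            have := h3 i (π x) i (π x)
            rw [if_pos rfl] at this
            rw [← this]
            have e1 : ∀ p ∈ (Finset.univ : Finset (Fin r)), Z i (π x) p * Z i (π x) p = 1 := by
              intro p _
              rcases hZ i (π x) p with h | h <;> rw [h] <;> norm_num
            rw [Finset.sum_congr rfl e1]
            simp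
          simp only [if_true, sub_self] at e ⊢
          rw [P_zero a b c d ha hb hc hd, hN, e]
        · have h'' : ¬ ((Sum.inr (i, x) : Fin r ⊕ (Fin 4 × G)) = Sum.inr (i', x')) := by
            intro e
            simp only [Sum.inr.injEq, Prod.mk.injEq] at e
            exact h' e.2
          rw [if_neg h'', if_pos h, if_pos h, hP (x - x') (sub_ne_zero.2 h'), hsub]
          ring
      · have h'' : ¬ ((Sum.inr (i, x) : Fin r ⊕ (Fin 4 × G)) = Sum.inr (i', x')) := by
            intro e
            simp only [Sum.inr.injEq, Prod.mk.injEq] at e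
            exact h e.1
        rw [if_neg h'', if_neg h, if_neg h]
        ring

end Pool.Agent.TH786.Had
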