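import Mathlib
import Pool.Agent.TH394.HadCheck3
import Pool.Agent.TH786.HadBorderQ

/-!
# A Hadamard matrix of order 668

Four `±1` sequences on `G = Z_4 x Z_4 x Z_2 x Z_5` (nibble `p` of `S` holds the four signs at the
element with code `p`), invariant under multiplication by `ω` on `Z_4 x Z_4 = Z[ω] / 4` and under
`-1` on `Z_5`. With `N` the kernel of the map from `G` onto `Q = Z_2 x Z_2 x Z_2`, the total
periodic autocorrelation is `-28` at the nonzero elements of `N` and `4` outside `N`. The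
Goethals-Seidel array of order `640` is bordered by twenty-eight rows and columns that are constant
on the cosets of `N`.
-/

set_option autoImplicit false

namespace Pool.Agent.TH786.Had.N167

open Pool.Agent.TH394

/-- the group -/
abbrev G : Type := Fin 4 × Fin 4 × Fin 2 × Fin 5

/-- the quotient -/
abbrev Q : Type := Fin 2 × Fin 2 × Fin 2

/-- the sequences -/
def S : ℕ :=
  0xffff04bb49700787447d700787447d8228dcbbc27cc73a77a04bb463dd3e700787447d4bb463dd3e7cc73a77a07cc73a77a08228dcbbc2ffff04bb498228dcbbc24bb463dd3effff04bb49bddb086686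

/-- the quotient map -/
def pi (x : G) : Q := (Fin.ofNat 2 x.1.1, Fin.ofNat 2 x.2.1.1, x.2.2.1)

/-- the code of a class -/
def cd (q : Q) : ℕ := Nat.add (Nat.mul 4 q.1.1) (Nat.add (Nat.mul 2 q.2.1.1) q.2.2.1)

/-- the class of a code -/
def pr (q : ℕ) (p : ℕ) : Bool :=
  Nat.beq (Nat.add (Nat.mul 4 (Nat.mod (Nat.div p 40) 2))
    (Nat.add (Nat.mul 2 (Nat.mod (Nat.div p 10) 2)) (Nat.mod (Nat.div p 5) 2))) q

theorem pi_pr : ∀ (q : Q) (x : G), pi x = q ↔ pr (cd q) (Loop.enc x) = true := by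
  decide +kernel

theorem pi_add : ∀ x y : G, pi (x + y) = pi x + pi y := by
  have h : ∀ p q : Fin 4, Fin.ofNat 2 (p + q).1 = Fin.ofNat 2 p.1 + Fin.ofNat 2 q.1 := by
    decide +kernel
  intro x y
  exact Prod.ext (h x.1 y.1) (Prod.ext (h x.2.1 y.2.1) rfl)

/-- agreements needed at the shift with code `p` -/
def tt (p : ℕ) : ℕ := cond (pr 0 p) 306 322

set_option maxRecDepth 100000 in
theorem check : checkC G S tt = true := by decide +kernel

/-- class sums -/
def cA : Q → ℤ := fun q => if q = 0 then 4 else 0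
/-- class sums -/
def cB : Q → ℤ := fun q => if q = 0 then 4 else 2
/-- class sums -/
def cC : Q → ℤ := fun q => if q = 0 then 4 else 2
/-- class sums -/
def cD : Q → ℤ := fun q => if q = 0 then 2 else 0

/-- code of the border columns -/
def Zn : ℕ :=
  0x8715b35c388ddae0c66ad716335638b19ab1c5acd50e2f66afffc000ca712d9e43a96c721d4b6b90ea1b5d8554d2fc0ae696e253301fff80cca78966753c0bb2a9e45d854f626d287b136963d89b4b1ac01fc07fa99347054c9a382a64d1c953068e4a9a307a44d1c353268e1fffffff

/-- code of the border rows -/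
def Yn : ℕ :=
  0xa6c66695d2e2b24be8f0d8a574786c533a3c36a99c1e9a554e8ecc2be12e959371964bc939caa5651de453330f72a99987b8554dc35c2b27554df08d2b27784795933ca34bc91ed1a5658e695333c635a999e21b36a98b879a55c5c3cc2b63e16695b171b24b5939d8a52d1d6c53170f

/-- code of the corner -/
def Xn : ℕ :=
  0x59bcb162ddc58b17ee2c58bf7162c5f98b162fec58b17d62c086ba0b0435d450318ee2808e73141453d821a29ac10d34961a340b98d1a05c468d02ea344817d1a044b68d0265346817296d0b08ca68584e436282731b101b88d8c05d46c202fa1610

/-- border columns -/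
def Z (i : Fin 4) (q : Q) (p : Fin 28) : ℤ :=
  sgn Zn (Nat.add (Nat.mul (Nat.add (Nat.mul 8 i.1) (cd q)) 28) p.1)

/-- border rows -/
def Y (p : Fin 28) (i : Fin 4) (q : Q) : ℤ :=
  sgn Yn (Nat.add (Nat.mul p.1 32) (Nat.add (Nat.mul 8 i.1) (cd q)))

/-- corner -/
def X (p q : Fin 28) : ℤ := sgn Xn (Nat.add (Nat.mul p.1 28) q.1)

theorem cls (i : ℕ) (c : Q → ℤ)
    (h : ∀ q : Q, 2 * (onesC G S i (pr (cd q)) : ℤ) - (cnt G (pr (cd q)) : ℤ) = c q) (q : Q) :
    ∑ x : G, (if pi x = q then sq S i x else 0) = c q := by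
  rw [← h q, ← sum_sqC]
  exact Finset.sum_congr rfl fun x _ => if_congr (pi_pr q x) rfl rfl

theorem clsw (h : ∀ q : Q, cnt G (pr (cd q)) = 20) (q : Q) :
    ∑ x : G, (if pi x = q then (1 : ℤ) else 0) = 20 := by
  have e := h q
  have : ((cnt G (pr (cd q)) : ℕ) : ℤ) = 20 := by rw [e]; rfl
  rw [← this, ← sum_cnt]
  exact Finset.sum_congr rfl fun x _ => if_congr (pi_pr q x) rfl rfl

/-- prescribed autocorrelation -/
def tau (q : Q) : ℤ := if q = 0 then -28 else 4

theorem tt_tau : ∀ s : G, 2 * (tt (Loop.enc s) : ℤ) - 640 = tau (pi s) := by decide +kernel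

theorem h1 : ∀ p p' : Fin 28, ∑ q, X p q * X p' q + 20 * ∑ j, ∑ q, Y p j q * Y p' j q =
    if p = p' then (668 : ℤ) else 0 := by decide +kernel

theorem h2 : ∀ (p : Fin 28) (i : Fin 4) (x : Q),
    ∑ q, X p q * Z i x q + ∑ j, ∑ q, gs cA cB cC cD i x j q * Y p j q = 0 := by
  decide +kernel

theorem h3 : ∀ (i : Fin 4) (x : Q) (i' : Fin 4) (t : Q),
    ∑ p, Z i x p * Z i' t p = if i = i' then -tau (x - t) else 0 := by decide +kernel

theorem had : HadOrder 668 := by
  have e : 28 + 4 * Fintype.card G = 668 := by simp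
  rw [← e]
  refine hadamard_borderQ (G := G) (Q := Q) pi pi_add (sq S 0) (sq S 1) (sq S 2) (sq S 3)
    (fun x => sgn_pm _ _) (fun x => sgn_pm _ _) (fun x => sgn_pm _ _) (fun x => sgn_pm _ _)
    20 (clsw (by decide +kernel)) cA cB cC cD
    (cls 0 cA (by decide +kernel)) (cls 1 cB (by decide +kernel)) (cls 2 cC (by decide +kernel))
    (cls 3 cD (by decide +kernel)) Z Y X (fun _ _ _ => sgn_pm _ _) (fun _ _ _ => sgn_pm _ _)
    (fun _ _ => sgn_pm _ _) 668 (by simp) h1 h2 tau h3 ?_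
  intro s hs
  have g1 := checkC_spec S tt check s hs
  have g2 : (Fintype.card G : ℤ) = 160 := by simp
  rw [g1, g2, ← tt_tau s]
  norm_num

end Pool.Agent.TH786.Had.N167
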