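import Mathlib
import Pool.Agent.TH394.HadCheck3

/-!
# Williamson-type quadruples from four symmetric functions on an abelian group

Let `f 0, f 1, f 2, f 3` be symmetric `±1` functions on a finite abelian group `G` with sums
`2, 0, 0, 0` and total periodic autocorrelation `-4`. The group matrices `f i (x - y)`, bordered by
one row and one column, are four symmetric commuting `±1` matrices of order `|G| + 1` whose squares
add up to `4 (|G| + 1)`.
-/

set_option autoImplicit false

open Matrix

namespace Pool.Agent.TH786.Wil

/-- Four `±1` matrices of order `w` with `X Yᵀ = Y Xᵀ` and `∑ X Xᵀ = 4 w`. -/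
def Wil (w : ℕ) : Prop :=
  ∃ A : Fin 4 → Matrix (Fin w) (Fin w) ℤ,
    (∀ i r c, A i r c = 1 ∨ A i r c = -1) ∧ (∀ i j, A i * (A j)ᵀ = A j * (A i)ᵀ) ∧
    ∑ i, A i * (A i)ᵀ = (4 * (w : ℤ)) • (1 : Matrix (Fin w) (Fin w) ℤ)

/-- sign of the border -/
def e (i : Fin 4) : ℤ := if i = 0 then -1 else 1

/-- the sums -/
def S (i : Fin 4) : ℤ := if i = 0 then 2 else 0

theorem eS : ∀ i j : Fin 4, e j + e i * S j = e i + e j * S i := by decide

theorem e_sq : ∀ i : Fin 4, e i * e i = 1 := by decide

variable {G : Type} [AddCommGroup G] [Fintype G] [DecidableEq G]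

/-- the bordered matrices -/
def M (f : Fin 4 → G → ℤ) (i : Fin 4) : Matrix (Option G) (Option G) ℤ := fun r c =>
  match r, c with
  | none, none => 1
  | none, some _ => e i
  | some _, none => e i
  | some x, some y => f i (x - y)

omit [DecidableEq G] in
theorem prod_apply (f : Fin 4 → G → ℤ) (i j : Fin 4) (r c : Option G) :
    (M f i * (M f j)ᵀ) r c =
      M f i r none * M f j c none + ∑ y : G, M f i r (some y) * M f j c (some y) := by
  rw [Matrix.mul_apply, Fintype.sum_option]
  simp only [Matrix.transpose_apply]

omit [DecidableEq G] in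
theorem sum_sub (g : G → ℤ) (z : G) : ∑ y, g (z - y) = ∑ y, g y :=
  Fintype.sum_equiv (Equiv.subLeft z) _ _ fun y => rfl

omit [DecidableEq G] in
theorem cross (g h : G → ℤ) (hg : ∀ x, g (-x) = g x) (hh : ∀ x, h (-x) = h x) (x z : G) :
    ∑ y, g (x - y) * h (z - y) = ∑ y, h (x - y) * g (z - y) := by
  refine Fintype.sum_equiv (Equiv.subLeft (x + z)) _ _ fun y => ?_
  have e1 : x - (x + z - y) = -(z - y) := by abel
  have e2 : z - (x + z - y) = -(x - y) := by abel
  show _ = h (x - (x + z - y)) * g (z - (x + z - y))
  rw [e1, e2, hg, hh, mul_comm]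

omit [DecidableEq G] in
theorem auto (g : G → ℤ) (x z : G) :
    ∑ y, g (x - y) * g (z - y) = ∑ y, g y * g (y + (z - x)) := by
  refine Fintype.sum_equiv (Equiv.subLeft x) _ _ fun y => ?_
  show _ = g (x - y) * g (x - y + (z - x))
  have e1 : x - y + (z - x) = z - y := by abel
  rw [e1]

theorem wil_border (f : Fin 4 → G → ℤ) (hpm : ∀ i x, f i x = 1 ∨ f i x = -1)
    (hsym : ∀ i x, f i (-x) = f i x) (hs : ∀ i, ∑ x, f i x = S i)
    (hP : ∀ s, s ≠ 0 → ∑ i, ∑ x, f i x * f i (x + s) = -4) :
    Wil (Fintype.card G + 1) := by
  have comm : ∀ i j, M f i * (M f j)ᵀ = M f j * (M f i)ᵀ := by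
    intro i j
    ext r c
    rw [prod_apply, prod_apply]
    have h := eS i j
    cases r with
    | none =>
      cases c with
      | none => simp only [M, Finset.sum_const, nsmul_eq_mul]; ring
      | some z =>
        simp only [M, ← Finset.mul_sum, sum_sub, hs]
        linarith
    | some x =>
      cases c with
      | none =>
        simp only [M, ← Finset.sum_mul, sum_sub, hs]
        linarith
      | some z =>
        simp only [M]
        rw [cross (f i) (f j) (hsym i) (hsym j) x z]
        ring
  have tot : ∑ i, M f i * (M f i)ᵀ =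
      (4 * ((Fintype.card G + 1 : ℕ) : ℤ)) • (1 : Matrix (Option G) (Option G) ℤ) := by
    ext r c
    rw [Matrix.sum_apply, Matrix.smul_apply, smul_eq_mul]
    simp only [prod_apply]
    have hsq : ∀ i x, f i x * f i x = 1 := by
      intro i x
      rcases hpm i x with h | h <;> rw [h] <;> norm_num
    cases r with
    | none =>
      cases c with
      | none =>
        simp only [M, e_sq, Finset.sum_const, Finset.card_univ, nsmul_eq_mul, Matrix.one_apply_eq,
          Fintype.card_fin]
        push_cast
        ring
      | some z =>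
        rw [Matrix.one_apply_ne (by simp)]
        simp only [M, ← Finset.mul_sum, sum_sub, hs, mul_zero]
        decide
    | some x =>
      cases c with
      | none =>
        rw [Matrix.one_apply_ne (by simp)]
        simp only [M, ← Finset.sum_mul, sum_sub, hs, mul_zero]
        decide
      | some z =>
        by_cases hxz : x = z
        · subst hxz
          simp only [M, e_sq, hsq, Finset.sum_const, Finset.card_univ, nsmul_eq_mul,
            Matrix.one_apply_eq, Fintype.card_fin]
          push_cast
          ring
        · rw [Matrix.one_apply_ne (by simpa using hxz)]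
          simp only [M, e_sq, auto, Finset.sum_add_distrib]
          rw [hP _ (sub_ne_zero.2 (Ne.symm hxz))]
          simp
  have hpm' : ∀ i r c, M f i r c = 1 ∨ M f i r c = -1 := by
    intro i r c
    have he : ∀ i, e i = 1 ∨ e i = -1 := by decide
    cases r with
    | none =>
      cases c with
      | none => exact Or.inl rfl
      | some z => exact he i
    | some x =>
      cases c with
      | none => exact he i
      | some z => exact hpm i _
  let ε : Option G ≃ Fin (Fintype.card G + 1) :=
    Fintype.equivFinOfCardEq (by rw [Fintype.card_option])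
  refine ⟨fun i => (M f i).submatrix ε.symm ε.symm, fun i r c => hpm' i _ _, ?_, ?_⟩
  · intro i j
    simp only [Matrix.transpose_submatrix, Matrix.submatrix_mul_equiv]
    rw [comm i j]
  · simp only [Matrix.transpose_submatrix, Matrix.submatrix_mul_equiv]
    have : ∑ i, (M f i * (M f i)ᵀ).submatrix ε.symm ε.symm =
        (∑ i, M f i * (M f i)ᵀ).submatrix ε.symm ε.symm := by
      ext r c
      simp [Matrix.sum_apply]
    rw [this, tot]
    ext r c
    rw [Matrix.submatrix_apply, Matrix.smul_apply, Matrix.smul_apply, Matrix.one_apply,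
      Matrix.one_apply]
    simp

end Pool.Agent.TH786.Wil
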