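import Mathlib
import Pool.Agent.TH786.WilBorder

/-!
# Williamson-type matrices of order 59
-/

set_option autoImplicit false

namespace Pool.Agent.TH786.Wil.W59

open Pool.Agent.TH394

/-- the group -/
abbrev G : Type := Fin 2 × Fin 29

/-- the sequences: nibble `p` holds the four signs at the element with code `p` -/
def Q : ℕ :=
  0xea26def10d9a7997a9d01fed62ae5431347cef8907007098fec743134b

set_option maxRecDepth 100000 in
theorem check : checkC G Q (fun _ => 114) = true := by decide +kernel

theorem sym : ∀ (i : Fin 4) (x : G), sq Q i.1 (-x) = sq Q i.1 x := by decide +kernel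

theorem cn : (cnt G (fun _ => true) : ℤ) = 58 := by decide +kernel

theorem on : ∀ i : Fin 4, 2 * (onesC G Q i.1 (fun _ => true) : ℤ) - 58 = S i := by decide +kernel

theorem wil : Wil 59 := by
  have e : Fintype.card G + 1 = 59 := by simp
  rw [← e]
  refine wil_border (G := G) (fun i => sq Q i.1) (fun i x => sgn_pm _ _) sym ?_ ?_
  · intro i
    have h := sum_sqC (G := G) Q i.1 (fun _ => true)
    simp only [if_true] at h
    rw [h, cn, on i]
  · intro s hs
    have g1 := checkC_spec (G := G) Q (fun _ => 114) check s hs
    have g2 : (Fintype.card G : ℤ) = 58 := by simp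
    rw [g2] at g1
    rw [Fin.sum_univ_four]
    have g3 : P (sq (G := G) Q 0) (sq Q 1) (sq Q 2) (sq Q 3) s = -4 := by rw [g1]; norm_num
    rw [← g3]
    rfl

end Pool.Agent.TH786.Wil.W59
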