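import Mathlib
import Pool.Agent.TH786.WilBorder

/-!
# Kronecker products of Williamson-type quadruples with Hadamard matrices
-/

set_option autoImplicit false

open Matrix

namespace Pool.Agent.TH786.Wil

/-- `m` is the order of a Hadamard matrix. -/
def HadOrder (m : ℕ) : Prop :=
  ∃ H : Matrix (Fin m) (Fin m) ℤ, (∀ r c, H r c = 1 ∨ H r c = -1) ∧
    H * Hᵀ = (m : ℤ) • (1 : Matrix (Fin m) (Fin m) ℤ)

theorem wil_mul {w m : ℕ} (hw : Wil w) (hm : HadOrder m) : Wil (w * m) := by
  obtain ⟨A, hA, hAc, hAs⟩ := hw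
  obtain ⟨H, hH, hHH⟩ := hm
  let ε : Fin w × Fin m ≃ Fin (w * m) := finProdFinEquiv
  have key : ∀ i j, (kroneckerMap (· * ·) (A i) H) * (kroneckerMap (· * ·) (A j) H)ᵀ =
      kroneckerMap (· * ·) (A i * (A j)ᵀ) (H * Hᵀ) := by
    intro i j
    have h := (Matrix.mul_kronecker_mul (A i) (A j)ᵀ H Hᵀ).symm
    rw [← h]
    rfl
  refine ⟨fun i => (kroneckerMap (· * ·) (A i) H).submatrix ε.symm ε.symm, ?_, ?_, ?_⟩
  · intro i r c
    simp only [Matrix.submatrix_apply, Matrix.kroneckerMap_apply]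
    rcases hA i (ε.symm r).1 (ε.symm c).1 with h | h <;>
      rcases hH (ε.symm r).2 (ε.symm c).2 with h' | h' <;> rw [h, h'] <;> norm_num
  · intro i j
    simp only [Matrix.transpose_submatrix, Matrix.submatrix_mul_equiv]
    rw [key i j, key j i, hAc i j]
  · simp only [Matrix.transpose_submatrix, Matrix.submatrix_mul_equiv]
    ext r c
    have e1 : (∑ i, (kroneckerMap (· * ·) (A i) H * (kroneckerMap (· * ·) (A i) H)ᵀ).submatrix
        ε.symm ε.symm) r c = (∑ i, A i * (A i)ᵀ) (ε.symm r).1 (ε.symm c).1 *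
          (H * Hᵀ) (ε.symm r).2 (ε.symm c).2 := by
      rw [Matrix.sum_apply, Matrix.sum_apply, Finset.sum_mul]
      refine Finset.sum_congr rfl fun i _ => ?_
      rw [Matrix.submatrix_apply, key i i, Matrix.kroneckerMap_apply]
    rw [e1, hAs, hHH]
    simp only [Matrix.smul_apply, Matrix.one_apply, smul_eq_mul]
    by_cases hrc : r = c
    · subst hrc
      simp
      ring
    · have h2 : ε.symm r ≠ ε.symm c := fun h => hrc (ε.symm.injective h)
      by_cases h3 : (ε.symm r).1 = (ε.symm c).1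
      · have h4 : (ε.symm r).2 ≠ (ε.symm c).2 := fun h => h2 (Prod.ext h3 h)
        simp [hrc, h4]
      · simp [hrc, h3]

end Pool.Agent.TH786.Wil
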